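import Mathlib

/-!
Belief propagation image of product measures for the antiferromagnetic Potts model.
We show that for every number of colours `q ≥ 4`, every `d ≥ 2` and every `0 < β < 1`
the image of the product measures is NOT convex.
-/

namespace Pool.Agent.Results.MP_d064d6_lc.NotConvex

open Finset

/-- Antiferromagnetic Potts interaction matrix: `β` on the diagonal and `1` off it. -/
def pottsA (q : ℕ) (β : ℝ) (c b : Fin q) : ℝ := if b = c then β else 1

/-- `G_c(μ) = E_{τ ∼ μ} ∏ i, A_{c, τ i}` for a weight function `μ` on `[q]^d`. -/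
def bpG (q d : ℕ) (β : ℝ) (μ : (Fin d → Fin q) → ℝ) (c : Fin q) : ℝ :=
  ∑ τ : Fin d → Fin q, μ τ * ∏ i, pottsA q β c (τ i)

/-- The belief-propagation map `F_A(μ) = G(μ) / ∑_c G_c(μ)`. -/
noncomputable def bpF (q d : ℕ) (β : ℝ) (μ : (Fin d → Fin q) → ℝ) : Fin q → ℝ :=
  fun c => bpG q d β μ c / ∑ b, bpG q d β μ b

/-- The product measure `p_1 ⊗ ⋯ ⊗ p_d` on `[q]^d`. -/
def prodMeasure (q d : ℕ) (p : Fin d → Fin q → ℝ) : (Fin d → Fin q) → ℝ :=
  fun τ => ∏ i, p i (τ i)

/-- The image of the product measures under the belief-propagation map. -/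
def prodImage (q d : ℕ) (β : ℝ) : Set (Fin q → ℝ) :=
  {x | ∃ p : Fin d → Fin q → ℝ, (∀ i, p i ∈ stdSimplex ℝ (Fin q)) ∧
    x = bpF q d β (prodMeasure q d p)}

/-- number of occurrences of the colour `c` -/
def cnt {q d : ℕ} (τ : Fin d → Fin q) (c : Fin q) : ℕ := #{i | τ i = c}

lemma prod_pottsA {q d : ℕ} (β : ℝ) (τ : Fin d → Fin q) (c : Fin q) :
    ∏ i, pottsA q β c (τ i) = β ^ cnt τ c := by
  unfold pottsA cnt
  rw [Finset.prod_ite]
  simp

/-- Bernoulli with an integer exponent, multiplied out. -/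
lemma bern (β : ℝ) (h0 : 0 < β) (h1 : β < 1) (m : ℤ) : 1 - (1 - β) * m ≤ β ^ m := by
  rcases le_or_gt 0 m with hm | hm
  · lift m to ℕ using hm
    have := one_add_mul_le_pow (a := β - 1) (by linarith) m
    simp only [Int.cast_natCast, zpow_natCast]
    calc 1 - (1 - β) * (m : ℝ) = 1 + m * (β - 1) := by ring
      _ ≤ (1 + (β - 1)) ^ m := this
      _ = β ^ m := by ring
  · obtain ⟨k, rfl⟩ : ∃ k : ℕ, m = -(k : ℤ) := ⟨m.natAbs, by omega⟩
    have := one_add_mul_le_pow (a := β⁻¹ - 1) (by have := inv_pos.mpr h0; linarith) k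
    have hi : 1 - β ≤ β⁻¹ - 1 := by
      have h2 : β * β⁻¹ = 1 := mul_inv_cancel₀ h0.ne'
      have h3 : 0 < β⁻¹ := inv_pos.mpr h0
      nlinarith [sq_nonneg (1 - β), mul_pos h3 (mul_pos (sub_pos.mpr h1) (sub_pos.mpr h1))]
    have hk : (0 : ℝ) ≤ k := Nat.cast_nonneg k
    rw [zpow_neg, zpow_natCast, ← inv_pow]
    push_cast
    calc 1 - (1 - β) * (-(k : ℝ)) = 1 + k * (1 - β) := by ring
      _ ≤ 1 + k * (β⁻¹ - 1) := by nlinarith
      _ ≤ (1 + (β⁻¹ - 1)) ^ k := this
      _ = β⁻¹ ^ k := by ring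


/-- Strict Bernoulli inequality away from the exponents `0` and `1`. -/
lemma bern_strict (β : ℝ) (h0 : 0 < β) (h1 : β < 1) (m : ℤ) (hm0 : m ≠ 0) (hm1 : m ≠ 1) :
    1 - (1 - β) * m < β ^ m := by
  rcases lt_or_gt_of_ne hm0 with hm | hm
  · have hb := bern β h0 h1 (m + 1)
    have e : β ^ (m + 1) = β ^ m * β := by rw [zpow_add_one₀ h0.ne']
    rw [e] at hb
    push_cast at hb
    have hm' : (m : ℝ) ≤ -1 := by exact_mod_cast (by omega : m ≤ -1)
    by_contra hcon
    push Not at hcon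
    have h2 : β ^ m * β ≤ (1 - (1 - β) * m) * β := mul_le_mul_of_nonneg_right hcon h0.le
    nlinarith [mul_pos h0 (sub_pos.mpr h1), mul_pos (sub_pos.mpr h1) (sub_pos.mpr h1)]
  · have hm2 : 2 ≤ m := by omega
    have hb := bern β h0 h1 (m - 1)
    have e : β ^ m = β ^ (m - 1) * β := by
      rw [← zpow_add_one₀ h0.ne']; congr 1; ring
    rw [e]
    push_cast at hb
    have hm' : (2 : ℝ) ≤ m := by exact_mod_cast hm2
    have h2 : (1 - (1 - β) * ((m : ℝ) - 1)) * β ≤ β ^ (m - 1) * β :=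
      mul_le_mul_of_nonneg_right hb h0.le
    nlinarith [mul_pos (sub_pos.mpr h1) (sub_pos.mpr h1),
      mul_pos (mul_pos (sub_pos.mpr h1) (sub_pos.mpr h1)) (by linarith : (0 : ℝ) < m - 1)]

/-- The core inequality for exponents. -/
lemma core_ineq (β : ℝ) (h0 : 0 < β) (h1 : β < 1) (a b c : ℤ) (k : ℕ) (hs : a + b + c ≤ 2) :
    0 ≤ β ^ a + β ^ b + β ^ c - (1 + 2 * β) * β ^ k := by
  have ha := bern β h0 h1 a
  have hb := bern β h0 h1 b
  have hc := bern β h0 h1 c
  have hs' : (a : ℝ) + b + c ≤ 2 := by exact_mod_cast hs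
  have hk : β ^ k ≤ 1 := pow_le_one₀ h0.le h1.le
  nlinarith [mul_nonneg (sub_nonneg.mpr h1.le) (sub_nonneg.mpr hs')]

lemma core_eq (β : ℝ) (h0 : 0 < β) (h1 : β < 1) (a b c : ℤ) (k : ℕ) (hs : a + b + c ≤ 2)
    (he : β ^ a + β ^ b + β ^ c - (1 + 2 * β) * β ^ k = 0) :
    (a = 0 ∨ a = 1) ∧ (b = 0 ∨ b = 1) ∧ (c = 0 ∨ c = 1) ∧ a + b + c = 2 ∧ k = 0 := by
  have ha := bern β h0 h1 a
  have hb := bern β h0 h1 b
  have hc := bern β h0 h1 c
  have hs' : (a : ℝ) + b + c ≤ 2 := by exact_mod_cast hs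
  have hk : β ^ k ≤ 1 := pow_le_one₀ h0.le h1.le
  have hpos : 0 < 1 - β := sub_pos.mpr h1
  have hm := mul_nonneg hpos.le (sub_nonneg.mpr hs')
  refine ⟨?_, ?_, ?_, ?_, ?_⟩
  · by_contra hcon
    push Not at hcon
    have := bern_strict β h0 h1 a hcon.1 hcon.2
    nlinarith
  · by_contra hcon
    push Not at hcon
    have := bern_strict β h0 h1 b hcon.1 hcon.2
    nlinarith
  · by_contra hcon
    push Not at hcon
    have := bern_strict β h0 h1 c hcon.1 hcon.2
    nlinarith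
  · by_contra hcon
    have hlt : a + b + c ≤ 1 := by omega
    have hlt' : (a : ℝ) + b + c ≤ 1 := by exact_mod_cast hlt
    nlinarith [mul_nonneg hpos.le (sub_nonneg.mpr hlt')]
  · by_contra hcon
    have : β ^ k < 1 := pow_lt_one₀ h0.le h1 hcon
    nlinarith

section Main

variable {q d : ℕ} (hq : 4 ≤ q) (hd : 2 ≤ d)

/-- delta measures are product measures -/
lemma prodMeasure_single (τ : Fin d → Fin q) (σ : Fin d → Fin q) :
    prodMeasure q d (fun i => Pi.single (τ i) 1) σ = if σ = τ then 1 else 0 := by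
  unfold prodMeasure
  split_ifs with h
  · subst h; simp
  · obtain ⟨i, hi⟩ := Function.ne_iff.mp h
    exact Finset.prod_eq_zero (Finset.mem_univ i) (by simp [hi])

lemma bpG_single (β : ℝ) (τ : Fin d → Fin q) (c : Fin q) :
    bpG q d β (prodMeasure q d (fun i => Pi.single (τ i) 1)) c = β ^ cnt τ c := by
  unfold bpG
  simp_rw [prodMeasure_single, prod_pottsA]
  simp

lemma bpG_eq (β : ℝ) (μ : (Fin d → Fin q) → ℝ) (c : Fin q) :
    bpG q d β μ c = ∑ τ, μ τ * β ^ cnt τ c := by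
  unfold bpG; simp_rw [prod_pottsA]

lemma single_mem (τ : Fin d → Fin q) (β : ℝ) :
    bpF q d β (prodMeasure q d (fun i => Pi.single (τ i) 1)) ∈ prodImage q d β :=
  ⟨_, fun i => single_mem_stdSimplex ℝ (τ i), rfl⟩

lemma cnt_le (τ : Fin d → Fin q) {a b c : Fin q} (hab : a ≠ b) (hac : a ≠ c) (hbc : b ≠ c) :
    cnt τ a + cnt τ b + cnt τ c ≤ d := by
  unfold cnt
  have h1 : Disjoint (univ.filter fun i => τ i = a) (univ.filter fun i => τ i = b) := by
    rw [Finset.disjoint_filter]; intro i _ h h'; exact hab (h.symm.trans h')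
  have h2 : Disjoint ((univ.filter fun i => τ i = a) ∪ (univ.filter fun i => τ i = b))
      (univ.filter fun i => τ i = c) := by
    rw [Finset.disjoint_left]
    intro i hi hi'
    simp only [Finset.mem_union, Finset.mem_filter, Finset.mem_univ, true_and] at hi hi'
    rcases hi with h | h
    · exact hac (h.symm.trans hi')
    · exact hbc (h.symm.trans hi')
  rw [← Finset.card_union_of_disjoint h1, ← Finset.card_union_of_disjoint h2]
  calc _ ≤ (univ : Finset (Fin d)).card := Finset.card_le_card (Finset.subset_univ _)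
    _ = d := by simp


/-- Linear functionals commute with the normalisation. -/
lemma bpF_lin (β : ℝ) (μ : (Fin d → Fin q) → ℝ) (a b c e : Fin q) (u v w z : ℝ) :
    u * bpF q d β μ a + v * bpF q d β μ b + w * bpF q d β μ c + z * bpF q d β μ e =
      (∑ τ, μ τ * (u * β ^ cnt τ a + v * β ^ cnt τ b + w * β ^ cnt τ c + z * β ^ cnt τ e)) /
        ∑ b, bpG q d β μ b := by
  unfold bpF
  simp_rw [bpG_eq, mul_add, Finset.sum_add_distrib]
  have : ∀ (t : ℝ) (x : Fin q), ∑ τ : Fin d → Fin q, μ τ * (t * β ^ cnt τ x) =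
      t * ∑ τ : Fin d → Fin q, μ τ * β ^ cnt τ x := by
    intro t x
    rw [Finset.mul_sum]; apply Finset.sum_congr rfl; intro τ _; ring
  simp_rw [this]
  ring

/-- the configuration with spin `0` equal to `a`, spin `1` equal to `b` and all others `z` -/
def conf {m : ℕ} (a b z : Fin q) : Fin (m + 2) → Fin q := Fin.cons a (Fin.cons b fun _ => z)

lemma cnt_conf {m : ℕ} (a b z c : Fin q) :
    cnt (conf (m := m) a b z) c =
      (if a = c then 1 else 0) + ((if b = c then 1 else 0) + if z = c then m else 0) := by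
  unfold cnt conf
  rw [Finset.card_filter, Fin.sum_univ_succ, Fin.sum_univ_succ]
  simp

/-- If a weighted sum is nonzero then some term is. -/
lemma exists_of_sum_ne {μ f : (Fin d → Fin q) → ℝ} (h : ∑ τ, μ τ * f τ ≠ 0) :
    ∃ τ, μ τ ≠ 0 ∧ f τ ≠ 0 := by
  obtain ⟨τ, _, hτ⟩ := Finset.exists_ne_zero_of_sum_ne_zero h
  exact ⟨τ, left_ne_zero_of_mul hτ, right_ne_zero_of_mul hτ⟩

lemma structure_one {m : ℕ} (τ : Fin (m + 2) → Fin q) {a z : Fin q} (haz : a ≠ z)
    (h1 : cnt τ a = 1) (h2 : cnt τ z = m + 1) : ∃ i, τ i = a ∧ ∀ j, j ≠ i → τ j = z := by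
  unfold cnt at h1 h2
  obtain ⟨i, hi⟩ := Finset.card_eq_one.mp h1
  have hia : τ i = a := by
    have : i ∈ univ.filter fun i => τ i = a := by rw [hi]; simp
    simpa using this
  refine ⟨i, hia, fun j hj => ?_⟩
  by_contra hne
  have hc : (univ.filter fun k => ¬ τ k = z).card = 1 := by
    have := Finset.card_filter_add_card_filter_not (s := (univ : Finset (Fin (m + 2))))
      (fun k => τ k = z)
    rw [h2] at this
    simp only [Finset.card_univ, Fintype.card_fin] at this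
    omega
  obtain ⟨k, hk⟩ := Finset.card_eq_one.mp hc
  have h3 : i ∈ univ.filter fun k => ¬ τ k = z := by simp [hia, haz]
  have h4 : j ∈ univ.filter fun k => ¬ τ k = z := by simp [hne]
  rw [hk, Finset.mem_singleton] at h3 h4
  exact hj (h4.trans h3.symm)

end Main

/-- Convexity would put the barycentre of a hypersimplex face in the product image. -/
theorem main (q m : ℕ) (hq : 4 ≤ q) (β : ℝ) (h0 : 0 < β) (h1 : β < 1) :
    ¬ Convex ℝ (prodImage q (m + 2) β) := by
  intro hconv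
  -- four colours
  let c0 : Fin q := ⟨0, by omega⟩
  let c1 : Fin q := ⟨1, by omega⟩
  let c2 : Fin q := ⟨2, by omega⟩
  let c3 : Fin q := ⟨3, by omega⟩
  have e01 : c0 ≠ c1 := by simp [c0, c1]
  have e02 : c0 ≠ c2 := by simp [c0, c2]
  have e03 : c0 ≠ c3 := by simp [c0, c3]
  have e12 : c1 ≠ c2 := by simp [c1, c2]
  have e13 : c1 ≠ c3 := by simp [c1, c3]
  have e23 : c2 ≠ c3 := by simp [c2, c3]
  have hne : 1 - β ≠ 0 := (sub_pos.mpr h1).ne'
  -- the three vertices
  let X : Fin q → Fin q → Fin q → ℝ := fun a b =>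
    bpF q (m + 2) β (prodMeasure q (m + 2) (fun i => Pi.single (conf (m := m) a b c0 i) 1))
  have hX : ∀ a b, X a b ∈ prodImage q (m + 2) β := fun a b => single_mem _ _
  let Z : Fin q → Fin q → ℝ := fun a b => ∑ c, β ^ cnt (conf (m := m) a b c0) c
  have hZ : ∀ a b, 0 < Z a b := by
    intro a b
    apply Finset.sum_pos
    · intro i _; positivity
    · exact ⟨c0, Finset.mem_univ _⟩
  have hXv : ∀ a b c, X a b c = β ^ cnt (conf (m := m) a b c0) c / Z a b := by
    intro a b c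
    simp only [X, Z, bpF, bpG_single]
  -- the barycentre
  let y : Fin q → ℝ := (2 / 3 : ℝ) • ((1 / 2 : ℝ) • X c0 c1 + (1 / 2 : ℝ) • X c0 c2) +
    (1 / 3 : ℝ) • X c1 c2
  have hy : y ∈ prodImage q (m + 2) β := by
    apply hconv _ (hX _ _) (by norm_num) (by norm_num) (by norm_num)
    exact hconv (hX _ _) (hX _ _) (by norm_num) (by norm_num) (by norm_num)
  have hyv : ∀ c, y c = (X c0 c1 c + X c0 c2 c + X c1 c2 c) / 3 := by
    intro c; simp only [y, Pi.add_apply, Pi.smul_apply, smul_eq_mul]; ring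
  obtain ⟨p, hp, hyp⟩ := hy
  set μ := prodMeasure q (m + 2) p with hμ
  have hμ0 : ∀ τ, 0 ≤ μ τ := fun τ => Finset.prod_nonneg fun i _ => (hp i).1 _
  set W := ∑ b, bpG q (m + 2) β μ b with hW
  -- the supporting functional
  let φ : (Fin (m + 2) → Fin q) → ℝ := fun τ => 1 * β ^ cnt τ c0 + β ^ m * β ^ cnt τ c1 +
    β ^ m * β ^ cnt τ c2 + (-((1 + 2 * β) * β ^ m)) * β ^ cnt τ c3
  have hφeq : ∀ τ, φ τ = β ^ m * (β ^ ((cnt τ c0 : ℤ) - m) + β ^ (cnt τ c1 : ℤ) +
      β ^ (cnt τ c2 : ℤ) - (1 + 2 * β) * β ^ cnt τ c3) := by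
    intro τ
    have : β ^ ((cnt τ c0 : ℤ) - m) = β ^ cnt τ c0 / β ^ m := by
      rw [zpow_sub₀ h0.ne', zpow_natCast, zpow_natCast]
    rw [this]
    simp only [φ, zpow_natCast]
    field_simp
    ring
  have hle : ∀ τ : Fin (m + 2) → Fin q,
      ((cnt τ c0 : ℤ) - m) + (cnt τ c1 : ℤ) + (cnt τ c2 : ℤ) ≤ 2 := by
    intro τ; have := cnt_le τ e01 e02 e12; omega
  have hφ0 : ∀ τ, 0 ≤ φ τ := by
    intro τ
    rw [hφeq]
    exact mul_nonneg (by positivity) (core_ineq β h0 h1 _ _ _ _ (hle τ))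
  have hφ1 : ∀ τ, φ τ = 0 → (cnt τ c0 = m ∨ cnt τ c0 = m + 1) ∧ (cnt τ c1 = 0 ∨ cnt τ c1 = 1) ∧
      (cnt τ c2 = 0 ∨ cnt τ c2 = 1) ∧ cnt τ c0 + cnt τ c1 + cnt τ c2 = m + 2 ∧ cnt τ c3 = 0 := by
    intro τ hτ
    rw [hφeq] at hτ
    have h2 : β ^ m ≠ 0 := by positivity
    have := core_eq β h0 h1 _ _ _ _ (hle τ) ((mul_eq_zero.mp hτ).resolve_left h2)
    omega
  -- evaluate functionals at the barycentre
  have hlin := bpF_lin (q := q) (d := m + 2) β μ
  have hφy : 1 * y c0 + β ^ m * y c1 + β ^ m * y c2 + (-((1 + 2 * β) * β ^ m)) * y c3 = 0 := by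
    have hz1 := (hZ c0 c1).ne'
    have hz2 := (hZ c0 c2).ne'
    have hz3 := (hZ c1 c2).ne'
    simp only [hyv, hXv, cnt_conf]
    simp only [e01, e02, e03, e12, e13, e23, e01.symm, e02.symm, e12.symm, if_true, if_false]
    field_simp
    ring
  have hψ12 : 1 * y c0 + 0 * y c1 + 0 * y c2 + (-(β ^ (m + 1))) * y c3 ≠ 0 := by
    have hz1 := (hZ c0 c1).ne'
    have hz2 := (hZ c0 c2).ne'
    have hz3 := (hZ c1 c2).ne'
    have : 1 * y c0 + 0 * y c1 + 0 * y c2 + (-(β ^ (m + 1))) * y c3 =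
        β ^ m * (1 - β) / (3 * Z c1 c2) := by
      simp only [hyv, hXv, cnt_conf]
      simp only [e01, e02, e03, e12, e13, e23, e01.symm, e02.symm, e12.symm, if_true, if_false]
      field_simp
      ring
    rw [this]
    have := hZ c1 c2
    have := sub_pos.mpr h1
    positivity
  have hψ01 : 0 * y c0 + 0 * y c1 + 1 * y c2 + (-β) * y c3 ≠ 0 := by
    have hz1 := (hZ c0 c1).ne'
    have hz2 := (hZ c0 c2).ne'
    have hz3 := (hZ c1 c2).ne'
    have : 0 * y c0 + 0 * y c1 + 1 * y c2 + (-β) * y c3 = (1 - β) / (3 * Z c0 c1) := by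
      simp only [hyv, hXv, cnt_conf]
      simp only [e01, e02, e03, e12, e13, e23, e01.symm, e02.symm, e12.symm, if_true, if_false]
      field_simp
      ring
    rw [this]
    have := hZ c0 c1
    have := sub_pos.mpr h1
    positivity
  have hψ02 : 0 * y c0 + 1 * y c1 + 0 * y c2 + (-β) * y c3 ≠ 0 := by
    have hz1 := (hZ c0 c1).ne'
    have hz2 := (hZ c0 c2).ne'
    have hz3 := (hZ c1 c2).ne'
    have : 0 * y c0 + 1 * y c1 + 0 * y c2 + (-β) * y c3 = (1 - β) / (3 * Z c0 c2) := by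
      simp only [hyv, hXv, cnt_conf]
      simp only [e01, e02, e03, e12, e13, e23, e01.symm, e02.symm, e12.symm, if_true, if_false]
      field_simp
      ring
    rw [this]
    have := hZ c0 c2
    have := sub_pos.mpr h1
    positivity
  rw [hyp, hlin] at hφy hψ12 hψ01 hψ02
  have hW0 : W ≠ 0 := by
    intro h; rw [← hW, h, div_zero] at hψ01; exact hψ01 rfl
  have hsum : ∑ τ, μ τ * φ τ = 0 := by
    rcases div_eq_zero_iff.mp hφy with h | h
    · exact h
    · exact absurd h hW0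
  have hsupp : ∀ τ, μ τ ≠ 0 → φ τ = 0 := by
    intro τ hτ
    have := (Finset.sum_eq_zero_iff_of_nonneg (fun τ _ => mul_nonneg (hμ0 τ) (hφ0 τ))).mp hsum τ
      (Finset.mem_univ _)
    exact (mul_eq_zero.mp this).resolve_left hτ
  -- support is a product set
  have hprod : ∀ τ, μ τ ≠ 0 ↔ ∀ i, p i (τ i) ≠ 0 := by
    intro τ
    rw [hμ]
    simp only [prodMeasure, ne_eq, Finset.prod_eq_zero_iff, Finset.mem_univ, true_and, not_exists]
  have hT : ∀ τ : Fin (m + 2) → Fin q, (∀ i, p i (τ i) ≠ 0) →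
      (cnt τ c0 = m ∨ cnt τ c0 = m + 1) ∧ (cnt τ c1 = 0 ∨ cnt τ c1 = 1) ∧
      (cnt τ c2 = 0 ∨ cnt τ c2 = 1) ∧ cnt τ c0 + cnt τ c1 + cnt τ c2 = m + 2 ∧ cnt τ c3 = 0 :=
    fun τ hτ => hφ1 τ (hsupp τ ((hprod τ).mpr hτ))
  obtain ⟨τ12, hμ12, hf12⟩ := exists_of_sum_ne (div_ne_zero_iff.mp hψ12).1
  obtain ⟨τ01, hμ01, hf01⟩ := exists_of_sum_ne (div_ne_zero_iff.mp hψ01).1
  obtain ⟨τ02, hμ02, hf02⟩ := exists_of_sum_ne (div_ne_zero_iff.mp hψ02).1
  have t12 := hφ1 _ (hsupp _ hμ12)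
  have t01 := hφ1 _ (hsupp _ hμ01)
  have t02 := hφ1 _ (hsupp _ hμ02)
  have s12 : cnt τ12 c1 = 1 ∧ cnt τ12 c2 = 1 := by
    have : cnt τ12 c0 ≠ m + 1 := by
      intro h
      apply hf12
      rw [h, t12.2.2.2.2]; ring
    omega
  have s01 : cnt τ01 c1 = 1 ∧ cnt τ01 c2 = 0 := by
    have : cnt τ01 c2 ≠ 1 := by
      intro h
      apply hf01
      rw [h, t01.2.2.2.2]; ring
    omega
  have s02 : cnt τ02 c2 = 1 ∧ cnt τ02 c1 = 0 := by
    have : cnt τ02 c1 ≠ 1 := by
      intro h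
      apply hf02
      rw [h, t02.2.2.2.2]; ring
    omega
  obtain ⟨i, hi, hi'⟩ := structure_one τ01 e01.symm s01.1 (by omega)
  obtain ⟨i2, hi2, hi2'⟩ := structure_one τ02 e02.symm s02.1 (by omega)
  have q01 := (hprod _).mp hμ01
  have q02 := (hprod _).mp hμ02
  have q12 := (hprod _).mp hμ12
  have p1 : p i c1 ≠ 0 := by have := q01 i; rwa [hi] at this
  have p2 : p i2 c2 ≠ 0 := by have := q02 i2; rwa [hi2] at this
  have p0 : ∀ j, j ≠ i → p j c0 ≠ 0 := by
    intro j hj; have := q01 j; rwa [hi' j hj] at this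
  have p0' : ∀ j, j ≠ i2 → p j c0 ≠ 0 := by
    intro j hj; have := q02 j; rwa [hi2' j hj] at this
  by_cases hii : i = i2
  · subst hii
    obtain ⟨k, hk⟩ : ∃ k, τ12 k = c1 := by
      by_contra hcon
      push Not at hcon
      have : cnt τ12 c1 = 0 := by
        unfold cnt; rw [Finset.card_eq_zero, Finset.filter_eq_empty_iff]; intro x _; exact hcon x
      omega
    obtain ⟨l, hl⟩ : ∃ l, τ12 l = c2 := by
      by_contra hcon
      push Not at hcon
      have : cnt τ12 c2 = 0 := by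
        unfold cnt; rw [Finset.card_eq_zero, Finset.filter_eq_empty_iff]; intro x _; exact hcon x
      omega
    have pk : p k c1 ≠ 0 := by have := q12 k; rwa [hk] at this
    have pl : p l c2 ≠ 0 := by have := q12 l; rwa [hl] at this
    have hkl : k ≠ l := by
      rintro rfl; exact e12 (hk.symm.trans hl)
    -- two spins of the same colour lead to a contradiction
    have two : ∀ (c : Fin q) (k : Fin (m + 2)), k ≠ i → p i c ≠ 0 → p k c ≠ 0 →
        (c = c1 ∨ c = c2) → False := by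
      intro c k hki hpi hpk hc
      let σ : Fin (m + 2) → Fin q := fun j => if j = i ∨ j = k then c else c0
      have hσ : ∀ j, p j (σ j) ≠ 0 := by
        intro j
        by_cases hj : j = i ∨ j = k
        · simp only [σ, hj, if_true]
          rcases hj with rfl | rfl
          · exact hpi
          · exact hpk
        · simp only [σ, hj, if_false]
          push Not at hj
          exact p0 j hj.1
      have := hT σ hσ
      have h2 : 2 ≤ cnt σ c := by
        unfold cnt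
        calc 2 = ({i, k} : Finset (Fin (m + 2))).card := (Finset.card_pair hki.symm).symm
          _ ≤ _ := by
            apply Finset.card_le_card
            intro j hj
            simp only [Finset.mem_insert, Finset.mem_singleton] at hj
            simp only [Finset.mem_filter, Finset.mem_univ, true_and, σ, if_pos hj]
      rcases hc with rfl | rfl <;> omega
    by_cases hki : k = i
    · exact two c2 l (fun h => hkl (hki.trans h.symm)) p2 pl (Or.inr rfl)
    · exact two c1 k hki p1 pk (Or.inl rfl)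
  · have hall : ∀ j, p j c0 ≠ 0 := by
      intro j
      by_cases hj : j = i
      · exact p0' j (fun h => hii (hj.symm.trans h))
      · exact p0 j hj
    have := hT (fun _ => c0) hall
    have h1 : cnt (fun _ : Fin (m + 2) => c0) c0 = m + 2 := by
      unfold cnt; simp
    omega

/-- **Disproof of Q1.** For every `q ≥ 4`, every `d ≥ 2` and every `0 < β < 1` (in particular for
all such `β` with `β ≥ 1 - q/(d+1)`) the image of the product measures under the
belief-propagation map of the antiferromagnetic Potts model is not convex. -/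
theorem result : ∀ q : ℕ, 4 ≤ q → ∀ d : ℕ, 2 ≤ d → ∀ β : ℝ, 0 < β → β < 1 →
    ¬ Convex ℝ (prodImage q d β) := by
  intro q hq d hd β h0 h1
  obtain ⟨m, rfl⟩ := Nat.exists_eq_add_of_le hd
  rw [Nat.add_comm 2 m]
  exact main q m hq β h0 h1

end Pool.Agent.Results.MP_d064d6_lc.NotConvex
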